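import Pool.Agent.Y993.HP.Stm

/-!
# HP-SB: exponential moment for one box
-/

set_option autoImplicit false

namespace Pool.Agent.Y328.HP

open Finset Filter Topology
open Pool.Agent.Y993.HP

theorem Ex_mono {Ω : Type} [Fintype Ω] {F F' : Ω → ℝ} (h : ∀ ω, F ω ≤ F' ω) : Ex F ≤ Ex F' := by
  unfold Ex
  exact div_le_div_of_nonneg_right (Finset.sum_le_sum fun ω _ => h ω) (Nat.cast_nonneg _)

theorem Ex_aff {Ω : Type} [Fintype Ω] [Nonempty Ω] (p q : ℝ) (F : Ω → ℝ) :
    Ex (fun ω => p + q * F ω) = p + q * Ex F := by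
  unfold Ex
  have h0 : (Fintype.card Ω : ℝ) ≠ 0 := by exact_mod_cast Fintype.card_ne_zero
  rw [Finset.sum_add_distrib, ← Finset.mul_sum, Finset.sum_const, Finset.card_univ, nsmul_eq_mul]
  field_simp

theorem Ex_const {Ω : Type} [Fintype Ω] [Nonempty Ω] (p : ℝ) : Ex (fun _ : Ω => p) = p := by
  unfold Ex
  have h0 : (Fintype.card Ω : ℝ) ≠ 0 := by exact_mod_cast Fintype.card_ne_zero
  rw [Finset.sum_const, Finset.card_univ, nsmul_eq_mul]
  field_simp

theorem mm_pow (k n : ℕ) : mm k n ^ (k + 1) = (n : ℝ) ^ k := by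
  unfold mm
  rw [← Real.rpow_natCast, ← Real.rpow_mul (Nat.cast_nonneg n), ← Real.rpow_natCast]
  congr 1
  push_cast
  have : (k : ℝ) + 1 ≠ 0 := by positivity
  field_simp

theorem root_pow (k : ℕ) {s : ℝ} (hs : 0 ≤ s) : (s ^ (k + 1)) ^ (1 / ((k : ℝ) + 1)) = s := by
  rw [← Real.rpow_natCast, ← Real.rpow_mul hs]
  have h : (((k + 1 : ℕ) : ℝ) * (1 / ((k : ℝ) + 1))) = 1 := by
    push_cast
    have : (k : ℝ) + 1 ≠ 0 := by positivity
    field_simp
  rw [h, Real.rpow_one]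

theorem pow_root (k : ℕ) {s : ℝ} (hs : 0 ≤ s) : (s ^ (1 / ((k : ℝ) + 1))) ^ (k + 1) = s := by
  rw [← Real.rpow_natCast, ← Real.rpow_mul hs]
  have h : ((1 / ((k : ℝ) + 1)) * ((k + 1 : ℕ) : ℝ)) = 1 := by
    push_cast
    have : (k : ℝ) + 1 ≠ 0 := by positivity
    field_simp
  rw [h, Real.rpow_one]

theorem mm_tend {k : ℕ} (hk : 1 ≤ k) : Tendsto (fun n : ℕ => mm k n) atTop atTop := by
  unfold mm
  have hk0 : (0 : ℝ) < k := by exact_mod_cast hk
  exact (tendsto_rpow_atTop (by positivity)).comp tendsto_natCast_atTop_atTop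

theorem rho_tend {k T L : ℕ} (hk : 1 ≤ k) (hT : 1 ≤ T) (hL : 1 ≤ L) :
    Tendsto (fun n : ℕ => mm k n / ((⌈(T : ℝ) * mm k n / L⌉₊ : ℕ) : ℝ)) atTop
      (𝓝 ((L : ℝ) / T)) := by
  have hT0 : (0 : ℝ) < T := by exact_mod_cast hT
  have hL0 : (0 : ℝ) < L := by exact_mod_cast hL
  have h1 := (tendsto_nat_ceil_mul_div_atTop (R := ℝ) (a := (T : ℝ) / L) (by positivity)).comp
    (mm_tend hk)
  have h2 := h1.inv₀ (by positivity)
  have h3 : ((T : ℝ) / L)⁻¹ = (L : ℝ) / T := inv_div _ _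
  rw [h3] at h2
  refine h2.congr fun n => ?_
  simp only [Function.comp_apply]
  rw [inv_div]
  congr 3
  ring

theorem lg_empty {d n N : ℕ} (u : Lab d n N) : lg u (∅ : Finset (Pt d n)) = 0 := by
  classical
  unfold lg
  refine Nat.le_zero.1 (Finset.sup_le fun C hC => ?_)
  rw [Finset.mem_filter, Finset.mem_powerset, Finset.subset_empty] at hC
  rw [hC.1, Finset.card_empty]

theorem zz_le {d n N : ℕ} (A : Finset (Pt d n)) (I : Fin d → Finset (Fin N)) (L : ℕ)
    (u : Lab d n N) : (zz A I L u : ℝ) ≤ L := by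
  unfold zz
  exact_mod_cast min_le_right _ _

/-- exponential moment from the mean and the variance -/
theorem exp_moment {Ω : Type} [Fintype Ω] [Nonempty Ω] (Z : Ω → ℝ) {L a ε y v : ℝ} (hL : 0 < L)
    (ha : 0 < a) (hε : 0 < ε) (hy : 0 ≤ y) (hZL : ∀ ω, Z ω ≤ L)
    (hm : Ex Z ≤ y + ε * L / 2) (hv : Ex (fun ω => (Z ω - Ex Z) ^ 2) ≤ v * L)
    (hD : Real.exp a * (4 * v) ≤ ε ^ 2 * (Real.exp (a * ε) - 1) * L) :
    Ex (fun ω => Real.exp (a / L * Z ω)) ≤ Real.exp (a / L * (y + 2 * ε * L)) := by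
  set E1 := Real.exp (a / L * (y + ε * L)) with hE1
  have hE1' : 1 ≤ E1 := Real.one_le_exp (by positivity)
  have hεL : 0 < ε * L := by positivity
  have hpt : ∀ ω, Real.exp (a / L * Z ω) ≤
      E1 + Real.exp a * 4 / (ε * L) ^ 2 * (Z ω - Ex Z) ^ 2 := by
    intro ω
    by_cases h : Z ω ≤ y + ε * L
    · have h1 : Real.exp (a / L * Z ω) ≤ E1 := by
        rw [hE1]
        apply Real.exp_le_exp.2
        exact mul_le_mul_of_nonneg_left h (by positivity)
      have h2 : 0 ≤ Real.exp a * 4 / (ε * L) ^ 2 * (Z ω - Ex Z) ^ 2 := by positivity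
      linarith
    · push Not at h
      have h1 : Real.exp (a / L * Z ω) ≤ Real.exp a := by
        apply Real.exp_le_exp.2
        calc a / L * Z ω ≤ a / L * L := mul_le_mul_of_nonneg_left (hZL ω) (by positivity)
          _ = a := by field_simp
      have h2 : ε * L / 2 ≤ Z ω - Ex Z := by linarith
      have h3 : (ε * L) ^ 2 ≤ 4 * (Z ω - Ex Z) ^ 2 := by nlinarith
      have h4 : Real.exp a ≤ Real.exp a * 4 / (ε * L) ^ 2 * (Z ω - Ex Z) ^ 2 := by
        have h5 : Real.exp a * 4 / (ε * L) ^ 2 * (Z ω - Ex Z) ^ 2 =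
            Real.exp a * (4 * (Z ω - Ex Z) ^ 2) / (ε * L) ^ 2 := by ring
        rw [h5, le_div_iff₀ (by positivity)]
        exact mul_le_mul_of_nonneg_left h3 (Real.exp_pos a).le
      linarith
  have h1 := Ex_mono hpt
  rw [Ex_aff] at h1
  refine h1.trans ?_
  have h2 : Real.exp a * 4 / (ε * L) ^ 2 * Ex (fun ω => (Z ω - Ex Z) ^ 2) ≤
      Real.exp a * 4 / (ε * L) ^ 2 * (v * L) := mul_le_mul_of_nonneg_left hv (by positivity)
  have h3 : Real.exp a * 4 / (ε * L) ^ 2 * (v * L) ≤ Real.exp (a * ε) - 1 := by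
    have h4 : Real.exp a * 4 / (ε * L) ^ 2 * (v * L) = Real.exp a * (4 * v) / (ε ^ 2 * L) := by
      field_simp
    rw [h4, div_le_iff₀ (by positivity)]
    linarith
  have h5 : Real.exp (a / L * (y + 2 * ε * L)) = E1 * Real.exp (a * ε) := by
    rw [hE1, ← Real.exp_add]
    congr 1
    field_simp
    ring
  rw [h5]
  have h6 : 1 ≤ Real.exp (a * ε) := Real.one_le_exp (by positivity)
  nlinarith

theorem sb1 (h1 : S_LOC) (h2 : S_VAR) : S_SB := by
  intro k T c ε a hk hT hc hε ha hg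
  have hT0 : (0 : ℝ) < T := by exact_mod_cast hT
  have hexp : 1 < Real.exp (a * ε) := Real.one_lt_exp_iff.2 (mul_pos ha hε)
  have hW : 0 < ε ^ 2 * (Real.exp (a * ε) - 1) := mul_pos (by positivity) (by linarith)
  set D := Real.exp a * (4 * ((k : ℝ) + 1)) / (ε ^ 2 * (Real.exp (a * ε) - 1)) with hD
  refine ⟨⌈D⌉₊, fun L hLD hL => ?_⟩
  have hL0 : (0 : ℝ) < L := by exact_mod_cast hL
  have hLD' : Real.exp a * (4 * ((k : ℝ) + 1)) ≤ ε ^ 2 * (Real.exp (a * ε) - 1) * L := by
    have h3 : D ≤ L := (Nat.le_ceil D).trans (by exact_mod_cast hLD)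
    rw [hD, div_le_iff₀ hW] at h3
    linarith
  set B : ℝ := (2 * T / c) ^ (k + 1) with hB
  set C : ℝ := B * (L / T) with hC
  have hB0 : 0 < B := by positivity
  have hC0 : 0 ≤ C := by positivity
  choose n0 δ' hδ' hloc using fun q : ℕ =>
    h1 k L C ((q : ℝ) * (L / T) ^ (k + 1)) (ε * L / 4) hk hC0 (by positivity) (by positivity)
  set ρ : ℕ → ℝ := fun n => mm k n / ((⌈(T : ℝ) * mm k n / L⌉₊ : ℕ) : ℝ) with hρ
  have hρt : Tendsto ρ atTop (𝓝 ((L : ℝ) / T)) := rho_tend hk hT hL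
  have hLT : (0 : ℝ) < L / T := by positivity
  have e1 : ∀ᶠ n in atTop, (L : ℝ) / (2 * T) < ρ n :=
    hρt.eventually_const_lt (by
      rw [div_lt_div_iff₀ (by positivity) hT0]
      nlinarith)
  have e2 : ∀ᶠ n in atTop, (L : ℝ) / T - ε * L / (8 * T) < ρ n :=
    hρt.eventually_const_lt (by
      have : 0 < ε * L / (8 * T) := by positivity
      linarith)
  have e3 : ∀ᶠ n in atTop, ∀ q ∈ Finset.range (⌈B⌉₊ + 1), n0 q ≤ n ∧
      |(q : ℝ) * ρ n ^ (k + 1) - q * (L / T) ^ (k + 1)| ≤ δ' q := by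
    rw [Filter.eventually_all_finset]
    intro q _
    refine (eventually_ge_atTop (n0 q)).and ?_
    have h3 : Tendsto (fun n => |(q : ℝ) * ρ n ^ (k + 1) - q * (L / T) ^ (k + 1)|) atTop (𝓝 0) := by
      have h4 : Tendsto (fun n => |(q : ℝ) * ρ n ^ (k + 1) - q * (L / T) ^ (k + 1)|) atTop
          (𝓝 |(q : ℝ) * (L / T) ^ (k + 1) - q * (L / T) ^ (k + 1)|) :=
        (((hρt.pow (k + 1)).const_mul (q : ℝ)).sub_const _).abs
      rwa [sub_self, abs_zero] at h4
    exact (h3.eventually_lt_const (hδ' q)).mono fun n hn => hn.le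
  obtain ⟨m0, hm0⟩ := Filter.eventually_atTop.1 ((eventually_ge_atTop 1).and (e1.and (e2.and e3)))
  refine ⟨m0, fun n hn => ?_⟩
  obtain ⟨hn1, r1, r2, r3⟩ := hm0 n hn
  intro G M A I hG hM hA hI
  have hmm : 0 < mm k n := by
    unfold mm
    have : (0 : ℝ) < n := by exact_mod_cast hn1
    positivity
  have hG1 : 1 ≤ G := by
    rw [hG]
    exact Nat.one_le_iff_ne_zero.2 (Nat.ceil_pos.2 (by positivity)).ne'
  have hG0 : (0 : ℝ) < G := by exact_mod_cast hG1
  have hM1 : 1 ≤ M := le_trans (Nat.one_le_pow _ _ hn1) hM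
  have hM0 : (0 : ℝ) < M := by exact_mod_cast hM1
  have hN : 0 < G * M := Nat.mul_pos hG1 hM1
  have : Nonempty (Fin (G * M)) := ⟨⟨0, hN⟩⟩
  have hρn : ρ n = mm k n / G := by rw [hρ, hG]
  have hρ0 : 0 < ρ n := by rw [hρn]; positivity
  have hρle : ρ n ≤ L / T := by
    rw [hρn, div_le_div_iff₀ hG0 hT0]
    have h3 : (T : ℝ) * mm k n / L ≤ G := by
      rw [hG]
      exact Nat.le_ceil _
    rw [div_le_iff₀ hL0] at h3
    linarith
  choose g hgI using hI
  have hsd : ∀ i, sd I i = (g i : ℝ) / G := by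
    intro i
    unfold sd
    rw [hgI i]
    push_cast
    field_simp
  set q : ℕ := ∏ i, g i with hq
  have hwt : (n : ℝ) ^ k * wt I = q * ρ n ^ (k + 1) := by
    unfold wt
    rw [Finset.prod_congr rfl fun i _ => hsd i, Finset.prod_div_distrib, Finset.prod_const,
      Finset.card_univ, Fintype.card_fin, ← mm_pow, hρn, div_pow, hq]
    push_cast
    ring
  set r : ℝ := (q : ℝ) ^ (1 / ((k : ℝ) + 1)) with hr
  have hr0 : 0 ≤ r := by positivity
  have hroot : ((n : ℝ) ^ k * wt I) ^ (1 / ((k : ℝ) + 1)) = r * ρ n := by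
    rw [hwt, Real.mul_rpow (Nat.cast_nonneg q) (by positivity), root_pow k hρ0.le]
  rw [hroot]
  have hy0 : 0 ≤ c * (r * ρ n) := by positivity
  -- case 1: an empty side
  by_cases hg0 : ∃ i, g i = 0
  · obtain ⟨i, hi⟩ := hg0
    have h3 : I i = ∅ := by
      rw [← Finset.card_eq_zero, hgI i, hi, Nat.zero_mul]
    have h4 : ∀ u : Lab (k + 1) n (G * M), zz A I L u = 0 := by
      intro u
      have h5 : pts A I u = ∅ := by
        classical
        unfold pts
        rw [Finset.filter_eq_empty_iff]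
        intro p _ h6
        have := h6 i
        rw [h3] at this
        exact absurd this (Finset.notMem_empty _)
      unfold zz
      rw [h5, lg_empty, Nat.zero_min]
    have h5 : (fun u : Lab (k + 1) n (G * M) => Real.exp (a / L * (zz A I L u : ℝ))) =
        fun _ => (1 : ℝ) := by
      funext u
      rw [h4 u, Nat.cast_zero, mul_zero, Real.exp_zero]
    rw [h5, Ex_const]
    exact Real.one_le_exp (by positivity)
  push Not at hg0
  -- case 2: the bound is trivial
  by_cases hbig : (L : ℝ) ≤ c * (r * ρ n)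
  · have h3 : ∀ u : Lab (k + 1) n (G * M), Real.exp (a / L * (zz A I L u : ℝ)) ≤
        Real.exp (a / L * (c * (r * ρ n) + 2 * ε * L)) := by
      intro u
      apply Real.exp_le_exp.2
      apply mul_le_mul_of_nonneg_left _ (by positivity)
      have h4 := zz_le A I L u
      have h5 : 0 ≤ 2 * ε * L := by positivity
      linarith
    have h4 := Ex_mono h3
    rwa [Ex_const] at h4
  push Not at hbig
  -- case 3
  have hrlt : r < 2 * T / c := by
    rw [lt_div_iff₀ hc]
    have h3 : c * r * (L / (2 * T)) < L := by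
      calc c * r * (L / (2 * T)) ≤ c * r * ρ n :=
            mul_le_mul_of_nonneg_left r1.le (by positivity)
        _ = c * (r * ρ n) := by ring
        _ < L := hbig
    have h4 : c * r * (L / (2 * T)) = (r * c) * L / (2 * T) := by ring
    rw [h4, div_lt_iff₀ (by positivity)] at h3
    have h5 : r * c * L < 2 * T * L := by linarith
    exact lt_of_mul_lt_mul_right h5 hL0.le
  have hqB : (q : ℝ) < B := by
    rw [hB, ← pow_root k (Nat.cast_nonneg q)]
    exact pow_lt_pow_left₀ hrlt hr0 (Nat.succ_ne_zero k)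
  have hqmem : q ∈ Finset.range (⌈B⌉₊ + 1) := by
    rw [Finset.mem_range]
    have h3 : (q : ℝ) < ((⌈B⌉₊ : ℕ) : ℝ) := hqB.trans_le (Nat.le_ceil B)
    have h4 : q < ⌈B⌉₊ := by exact_mod_cast h3
    omega
  obtain ⟨s1, s2⟩ := r3 q hqmem
  have hside : ∀ i, sd I i * mm k n ≤ C := by
    intro i
    have h3 : g i ≤ q := by
      rw [hq]
      exact Finset.single_le_prod' (f := g)
        (fun j _ => Nat.one_le_iff_ne_zero.2 (hg0 j)) (Finset.mem_univ i)
    have h4 : (g i : ℝ) ≤ B := le_trans (by exact_mod_cast h3) hqB.le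
    rw [hsd i]
    calc (g i : ℝ) / G * mm k n = g i * ρ n := by rw [hρn]; ring
      _ ≤ B * (L / T) := mul_le_mul h4 hρle hρ0.le hB0.le
      _ = C := hC.symm
  have hNn : n ^ 3 ≤ G * M := hM.trans (Nat.le_mul_of_pos_left M hG1)
  have hlq := hloc q n (G * M) A I s1 hN hA hNn hside (by rw [hwt]; exact s2)
  have hq0 : (0 : ℝ) < q := by
    have : 0 < q := Finset.prod_pos fun i _ => Nat.pos_of_ne_zero (hg0 i)
    exact_mod_cast this
  have hgq := hg L ((q : ℝ) * (L / T) ^ (k + 1)) (by positivity)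
  rw [Real.mul_rpow (Nat.cast_nonneg q) (by positivity), root_pow k hLT.le, ← hr] at hgq
  have hmean : Ex (fun u : Lab (k + 1) n (G * M) => (zz A I L u : ℝ)) ≤
      c * (r * ρ n) + ε * L / 2 := by
    have h3 := (abs_le.1 hlq).2
    have h4 : c * r * (L / T - ρ n) ≤ ε * L / 4 := by
      have h5 : c * r ≤ 2 * T := by
        rw [lt_div_iff₀ hc] at hrlt
        linarith
      have h6 : L / T - ρ n ≤ ε * L / (8 * T) := by linarith
      calc c * r * (L / T - ρ n) ≤ 2 * T * (ε * L / (8 * T)) :=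
            mul_le_mul h5 h6 (by linarith) (by positivity)
        _ = ε * L / 4 := by field_simp; ring
    have h7 : c * (r * (L / T)) = c * (r * ρ n) + c * r * (L / T - ρ n) := by ring
    linarith
  have hvar := h2 (k + 1) n (G * M) L A I hN
  have hmL : Ex (fun u : Lab (k + 1) n (G * M) => (zz A I L u : ℝ)) ≤ L := by
    have h3 := Ex_mono fun u : Lab (k + 1) n (G * M) => zz_le A I L u
    rwa [Ex_const] at h3
  refine exp_moment (fun u : Lab (k + 1) n (G * M) => (zz A I L u : ℝ)) (v := (k : ℝ) + 1) hL0 ha hε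
    hy0 (fun u => zz_le A I L u) hmean (hvar.trans ?_) hLD'
  push_cast
  exact mul_le_mul_of_nonneg_left hmL (by positivity)

end Pool.Agent.Y328.HP
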